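import Mathlib
import Pool.Agent.Helper58_MOO.Stmts

namespace Pool.Agent.MOO.H4

open Pool.Agent.Helper69_LOTS Pool.Agent.MOO Node

theorem below_countable {T : Set Node} (hT : AT T) (δ : Om) : {s | s ∈ T ∧ s.ht < δ}.Countable := by
  refine ((Om_Iio_countable δ).biUnion (t := fun ξ _ => {s | s ∈ T ∧ s.ht = ξ})
    (fun ξ _ => hT.lev ξ)).mono ?_
  rintro s ⟨h1, h2⟩
  exact Set.mem_biUnion (show s.ht ∈ Set.Iio δ from h2) ⟨h1, rfl⟩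

theorem exists_high {T : Set Node} (hT : AT T) {Y : Set Node} (hY : Y ⊆ T)
    (hYc : ¬ Y.Countable) (δ : Om) : ∃ y ∈ Y, δ ≤ y.ht := by
  by_contra hcon
  push Not at hcon
  have h1 : Y ⊆ {s | s ∈ T ∧ s.ht < δ} := fun y hy => ⟨hY hy, hcon y hy⟩
  exact hYc ((below_countable hT δ).mono h1)

theorem exists_high_fin {T : Set Node} (hT : AT T) {𝒰 : Set (Finset Node)}
    (hU : ∀ X ∈ 𝒰, ∀ x ∈ X, x ∈ T) (hUc : ¬ 𝒰.Countable) (δ : Om) :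
    ∃ X ∈ 𝒰, ∃ x ∈ X, δ ≤ x.ht := by
  by_contra hcon
  push Not at hcon
  apply hUc
  have h1 := Set.countable_ofPred_finite_subset (below_countable hT δ)
  have h2 : Set.InjOn (fun X : Finset Node => (X : Set Node)) 𝒰 :=
    fun X _ Y _ h => Finset.coe_injective h
  refine Set.MapsTo.countable_of_injOn (t := {t : Set Node | t.Finite ∧
    t ⊆ {s | s ∈ T ∧ s.ht < δ}}) ?_ h2 h1
  intro X hX
  exact ⟨X.finite_toSet, fun x hx => ⟨hU X hX x hx, hcon X hX x hx⟩⟩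

/-- The downward closure of an uncountable subset of a tree. -/
theorem sub_down {T A Y : Set Node} (hT : AT T) (hA : Sub T A) (hYA : Y ⊆ A)
    (hYc : ¬ Y.Countable) : {s | ∃ y ∈ Y, s ≤ y} ⊆ A ∧ Sub T {s | ∃ y ∈ Y, s ≤ y} := by
  have h1 : {s | ∃ y ∈ Y, s ≤ y} ⊆ A := by
    rintro s ⟨y, hy, hs⟩
    have := hA.2.1 y (hYA hy) s.ht
    rwa [le_iff_res.1 hs] at this
  refine ⟨h1, h1.trans hA.1, ?_, ?_⟩
  · rintro s ⟨y, hy, hs⟩ ξ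
    exact ⟨y, hy, (res_le s ξ).trans hs⟩
  · intro δ
    obtain ⟨y, hy, h2⟩ := exists_high hT (hYA.trans hA.1) hYc δ
    exact ⟨y.res δ, ⟨y, hy, res_le y δ⟩, res_ht_of_le h2⟩

theorem dichot (hM : MahStmt) (hP : PFA) (Q Z : Set Node) (hZ : ¬ Z.Countable) :
    (∃ Y, Y ⊆ Z ∧ ¬ Y.Countable ∧ ∀ w ∈ mts Y, w ∉ Q) ∨
    (∃ 𝒰 : Set (Finset Node), ¬ 𝒰.Countable ∧ (∀ X ∈ 𝒰, ∀ x ∈ X, x ∈ Z) ∧
      (∀ X ∈ 𝒰, ∀ w ∈ mts (X : Set Node), w ∉ Q) ∧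
      ∀ X ∈ 𝒰, ∀ Y ∈ 𝒰, X ≠ Y → ∃ w ∈ Q, ∃ x ∈ X, ∃ y ∈ Y, Mt w x y) := by
  classical
  set 𝓕 : Set (Finset Node) := {X | (∀ x ∈ X, x ∈ Z) ∧ ∀ w ∈ mts (X : Set Node), w ∉ Q} with hF
  have hher : ∀ A ∈ 𝓕, ∀ B, B ⊆ A → B ∈ 𝓕 := by
    rintro A ⟨h1, h2⟩ B hBA
    refine ⟨fun x hx => h1 x (hBA hx), ?_⟩
    rintro w ⟨s, hs, t, ht, hw⟩
    exact h2 w ⟨s, hBA hs, t, hBA ht, hw⟩
  have hsing : ∀ x ∈ Z, {x} ∈ 𝓕 := by
    intro x hx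
    refine ⟨by simpa using hx, ?_⟩
    rintro w ⟨s, hs, t, ht, hw⟩
    simp only [Finset.coe_singleton, Set.mem_singleton_iff] at hs ht
    subst hs
    subst ht
    exact absurd le_rfl hw.inc.1
  by_cases hccc : ∀ 𝒰 : Set (Finset Node), 𝒰 ⊆ 𝓕 → ¬ 𝒰.Countable →
      ∃ A ∈ 𝒰, ∃ B ∈ 𝒰, A ≠ B ∧ ∃ E ∈ 𝓕, A ⊆ E ∧ B ⊆ E
  · left
    obtain ⟨Y, hYZ, hYc, hY⟩ := hM hP Node 𝓕 hher hccc Z hZ hsing
    refine ⟨Y, hYZ, hYc, ?_⟩
    rintro w ⟨s, hs, t, ht, hw⟩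
    have h1 := hY {s, t} (by
      intro x hx
      simp only [Finset.coe_insert, Finset.coe_singleton, Set.mem_insert_iff,
        Set.mem_singleton_iff] at hx
      rcases hx with rfl | rfl
      · exact hs
      · exact ht)
    exact h1.2 w ⟨s, by simp, t, by simp, hw⟩
  · right
    push Not at hccc
    obtain ⟨𝒰, hU, hUc, hinc⟩ := hccc
    refine ⟨𝒰, hUc, fun X hX => (hU hX).1, fun X hX => (hU hX).2, ?_⟩
    intro X hX Y hY hne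
    have h1 : X ∪ Y ∉ 𝓕 := by
      intro h
      exact hinc X hX Y hY hne _ h Finset.subset_union_left Finset.subset_union_right
    have h2 : ∃ w ∈ mts ((X ∪ Y : Finset Node) : Set Node), w ∈ Q := by
      by_contra hcon
      push Not at hcon
      refine h1 ⟨?_, hcon⟩
      intro x hx
      rcases Finset.mem_union.1 hx with h | h
      · exact (hU hX).1 x h
      · exact (hU hY).1 x h
    obtain ⟨w, ⟨s, hs, t, ht, hw⟩, hwQ⟩ := h2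
    rw [Finset.mem_coe, Finset.mem_union] at hs ht
    rcases hs with hs | hs <;> rcases ht with ht | ht
    · exact absurd hwQ ((hU hX).2 w ⟨s, hs, t, ht, hw⟩)
    · exact ⟨w, hwQ, s, hs, t, ht, hw⟩
    · exact ⟨w, hwQ, t, ht, s, hs, hw.symm⟩
    · exact absurd hwQ ((hU hY).2 w ⟨s, hs, t, ht, hw⟩)

end Pool.Agent.MOO.H4
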