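import Mathlib
import Pool.Agent.Helper4_MOO.Base

namespace Pool.Agent.MOO.H4

open Pool.Agent.Helper69_LOTS Pool.Agent.MOO Node

theorem ncl (hM : MahStmt) (hE : ExlStmt) : NclStmt := by
  intro hP T hT Q A hA hNN
  have hAc : ¬ A.Countable := by
    intro hc
    obtain ⟨β, hβ⟩ := Om_bdd (hc.image fun s => s.ht)
    obtain ⟨s, hs, hsβ⟩ := hA.2.2 β
    have := hβ s.ht ⟨s, hs, rfl⟩
    rw [hsβ] at this
    exact lt_irrefl _ this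
  rcases dichot hM hP Q A hAc with ⟨Y, hYA, hYc, hY⟩ | ⟨𝒰, hUc, hUA, hUQ, hUd⟩
  · exfalso
    obtain ⟨h1, h2⟩ := sub_down hT.toAT hA hYA hYc
    obtain ⟨w, ⟨s, ⟨y, hy, hsy⟩, t, ⟨z, hz, htz⟩, hw⟩, hwQ⟩ := hNN _ h1 h2
    exact hY w ⟨y, hy, z, hz, hw.mono hsy htz⟩ hwQ
  · obtain ⟨B, C, hC, hBC⟩ := hE T hT Q 𝒰 (fun X hX x hx => hA.1 (hUA X hX x hx)) hUQ hUd
    obtain ⟨δ, hδ, -⟩ := hC.1 (Classical.arbitrary Om)
    obtain ⟨X, hX, hx⟩ := exists_high_fin hT.toAT (fun X hX x hx => hA.1 (hUA X hX x hx)) hUc δ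
    obtain ⟨σ, -, h, t, -, hh, -, -, -, hSub, -, hmt, hcov⟩ := hBC δ hδ X hX hx
    refine ⟨h, B σ, hh, hSub, ?_, hmt⟩
    intro g hg s hs
    obtain ⟨X', hX', x, hx, hle⟩ := hcov s hs g hg
    have := hA.2.1 x (hUA X' hX' x hx) (flip g s).ht
    rwa [le_iff_res.1 hle] at this

end Pool.Agent.MOO.H4
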