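import Mathlib
import Pool.Agent.Helper4_MOO.Base

namespace Pool.Agent.MOO.H4

open Pool.Agent.Helper69_LOTS Pool.Agent.MOO Node

theorem stb (hM : MahStmt) (hE : ExlStmt) : StbStmt := by
  intro hP T K A C hT hL hAcc X hXT hXc E hEc hEC hXacc
  rcases dichot hM hP Kᶜ X hXc with ⟨Y, hYX, hYc, hY⟩ | ⟨𝒰, hUc, hUX, hUQ, hUd⟩
  · exact ⟨Y, hYX, hYc, fun w hw => by simpa using hY w hw⟩
  · exfalso
    have hUT : ∀ Y ∈ 𝒰, ∀ x ∈ Y, x ∈ T := fun Y hY x hx => hXT (hUX Y hY x hx)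
    obtain ⟨B, C₁, hC₁, hBC⟩ := hE T hT Kᶜ 𝒰 hUT hUQ hUd
    obtain ⟨C₂, hC₂, hcl⟩ := (CM.skolem2 (X := Om) (i := id) (j := id) (k := id)
      Function.injective_id Function.injective_id
      (fun σ η ξ => ∀ s, s ∈ A η → s ∈ B σ → s.ht ≠ ξ)).clb
    obtain ⟨δ, ⟨⟨hδ1, hδ2⟩, hδE⟩, -⟩ := ((hC₁.inter hC₂).inter hEc).1 (Classical.arbitrary Om)
    obtain ⟨Y, hY, hYh⟩ := exists_high_fin hT.toAT hUT hUc δ
    obtain ⟨σ, hσ, h, t, htT, hh, hbel, htδ, htr, hSub, htB, hmt, -⟩ := hBC δ hδ1 Y hY hYh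
    have hYX : (Y : Set Node) ⊆ X := fun x hx => hUX Y hY x hx
    have hacc := hXacc δ hδE Y hYX
    rw [htr] at hacc
    obtain ⟨η, hη, htA, hNN⟩ := hAcc.base δ (hEC hδE) h hbel t htT htδ hacc
    have hsub : Sub T (A η ∩ B σ) := by
      refine ⟨fun s hs => hSub.1 hs.2, fun s hs ξ => ⟨(hL.tree η).2 s hs.1 ξ,
        hSub.2.1 s hs.2 ξ⟩, ?_⟩
      by_contra hcon
      push Not at hcon
      obtain ⟨ξ, hξ⟩ := hcon
      obtain ⟨ξ', h1, hξ'⟩ := hcl δ hδ2 σ η hσ hη ⟨ξ, fun s h1 h2 => hξ s ⟨h1, h2⟩⟩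
      have hξ'' : ξ' < δ := h1
      refine hξ' (t.res ξ') ((hL.tree η).2 t htA ξ') (htB ξ' hξ'') ?_
      rw [res_ht_of_le]
      rw [htδ]
      exact hξ''.le
    obtain ⟨w, hw, hwK⟩ := hNN _ Set.inter_subset_left hsub
    obtain ⟨s, hs, t', ht', hw'⟩ := hw
    obtain ⟨g, hg, hgw⟩ := hmt w ⟨s, hs.2, t', ht'.2, hw'⟩
    exact hgw (hwK g hg)

end Pool.Agent.MOO.H4
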